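import Mathlib
import Pool.Agent.H26.FB2

set_option autoImplicit false

open Filter Topology

namespace Pool.Agent.Results.MP_207313_an.Example

open H26 FB0 FB1 FB2

section
variable {E : Type} [NormedAddCommGroup E] [NormedSpace ℝ E]
  {X : Type} [NormedAddCommGroup X] [NormedSpace ℝ X] {ι : X → (E →L[ℝ] ℝ) → ℝ} {x w : E}

lemma two (h : IsModel ι) (H : ∀ v, ‖v‖ ≤ 1 → ∃ a b : ℝ, v = a • x + b • w ∧ |a| + |b| ≤ 1) (f : X)
    {J : Type} [Fintype J] (p : J → E →L[ℝ] ℝ) {c : ℝ} (hc : 0 < c) (h1 : ∑ j, |p j x| ≤ c)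
    (h2 : ∑ j, |p j w| ≤ c) : ∑ j, |ι f (p j)| ≤ c * ‖f‖ := m_tuple h f p hc fun v hv => by
  obtain ⟨a, b, rfl, hab⟩ := H v hv
  refine (Finset.sum_le_sum (g := fun j => |a| * |p j x| + |b| * |p j w|) fun j _ => by
    simpa [abs_mul] using abs_add_le (a * p j x) (b * p j w)).trans ?_
  rw [Finset.sum_add_distrib, ← Finset.mul_sum, ← Finset.mul_sum]
  nlinarith [abs_nonneg a, abs_nonneg b]

lemma dual (h : IsModel ι) (H : ∀ v, ‖v‖ ≤ 1 → ∃ a b : ℝ, v = a • x + b • w ∧ |a| + |b| ≤ 1) (f : X)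
    (hf : ‖f‖ ≤ 1) : ∃ a, 0 ≤ a ∧ a ≤ 1 ∧ ∀ z, |ι f z| ≤ a * |z x| + (1 - a) * |z w| := by
  have h1 : ∀ z c, |z x| ≤ c → |z w| ≤ c → |ι f z| ≤ c := fun z c h1 h2 =>
    le_of_forall_pos_le_add fun ε hε => by
      have h0 : 0 < c + ε := by linarith [abs_nonneg (z x)]
      simpa using (two h H f (fun _ : Unit => z) h0 (by simpa using by linarith)
        (by simpa using by linarith)).trans (mul_le_of_le_one_right h0.le hf)
  let S : Set ℝ := insert 0 {r | ∃ z : E →L[ℝ] ℝ, |z w| < |z x| ∧ r = (|ι f z| - |z w|) / (|z x| - |z w|)}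
  have h2 : 1 ∈ upperBounds S := by
    rintro _ (rfl | ⟨z, hz, rfl⟩)
    exacts [zero_le_one, (div_le_one (sub_pos.2 hz)).2 (sub_le_sub_right (h1 z _ le_rfl hz.le) _)]
  refine ⟨sSup S, le_csSup ⟨1, h2⟩ (Set.mem_insert _ _), csSup_le ⟨0, Set.mem_insert _ _⟩ h2,
    fun z => ?_⟩
  rcases lt_trichotomy |z w| |z x| with hz | hz | hz
  · linarith [(div_le_iff₀ (sub_pos.2 hz)).1 (le_csSup ⟨1, h2⟩ (Set.mem_insert_of_mem _ ⟨z, hz, rfl⟩))]
  · linarith [h1 z _ le_rfl hz.le, congrArg (sSup S * ·) hz]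
  · have h3 := sub_pos.2 hz
    have : sSup S ≤ (|z w| - |ι f z|) / (|z w| - |z x|) := csSup_le ⟨0, Set.mem_insert _ _⟩ (by
      rintro _ (rfl | ⟨y, hy, rfl⟩)
      · exact div_nonneg (sub_nonneg.2 (h1 z _ hz.le le_rfl)) h3.le
      have h4 := sub_pos.2 hy
      have h0 : 0 < (|z w| - |z x|) * |y w| + (|y x| - |y w|) * |z w| :=
        add_pos_of_nonneg_of_pos (by positivity) (mul_pos h4 ((abs_nonneg _).trans_lt hz))
      have := (two h H f ![(|z w| - |z x|) • y, (|y x| - |y w|) • z] h0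
        (by simp [abs_mul, abs_of_pos h3, abs_of_pos h4]; linarith)
        (by simp [abs_mul, abs_of_pos h3, abs_of_pos h4])).trans (mul_le_of_le_one_right h0.le hf)
      simp only [Fin.sum_univ_two, Matrix.cons_val_zero, Matrix.cons_val_one, (mem h f).1.1 _ h3.le,
        (mem h f).1.1 _ h4.le, abs_mul, abs_of_pos h3, abs_of_pos h4] at this
      rw [div_le_div_iff₀ h4 h3]
      linarith)
    linarith [(le_div_iff₀ h3).1 this]

lemma main (h : IsModel ι) (H : ∀ v, ‖v‖ ≤ 1 → ∃ a b : ℝ, v = a • x + b • w ∧ |a| + |b| ≤ 1)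
    (hx : ‖x‖ ≤ 1) (hw : ‖w‖ ≤ 1) {χ ξ : E →L[ℝ] ℝ} (c1 : χ x = 0) (c2 : χ w = 1) (c3 : ξ x = 1)
    (c4 : ξ w = 0) (c5 : ‖ξ‖ ≤ 1) (μ : X →L[ℝ] ℝ) (f g : X) (hf : ∀ z, |ι f z| ≤ |z x|) {η : ℝ}
    (hη : 0 < η) (h1 : η ≤ μ f) (h2 : 2 * η ≤ ‖g‖) : ∃ y, ‖y‖ ≤ 1 ∧
      1 + (μ f - η) * (‖g‖ - 2 * η) ≤ (1 + η) * ‖y + μ y • g‖ := by
  obtain ⟨m, p, p1, p2⟩ := m_lt h (sub_lt_self ‖g‖ hη)
  let q : Option (Fin m) → E →L[ℝ] ℝ := fun j => j.elim ((1 - ∑ i, |p i x|) • ξ) p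
  have q0 := sub_nonneg.2 (p1 x hx)
  have q1 : ∑ j, |q j x| = 1 := by simp [q, c3, abs_of_nonneg q0]
  have q2 : ∑ j, |q j w| ≤ 1 := by simpa [q, c4] using p1 w hw
  have q3 : ∀ j, ‖q j‖ ≤ 3 / 2 := fun j => le_trans (by
    rcases j with _ | j
    · refine (norm_smul _ _).trans_le (mul_le_one₀ ?_ (norm_nonneg _) c5)
      rw [Real.norm_of_nonneg q0]
      exact sub_le_self _ (by positivity)
    · exact ContinuousLinearMap.opNorm_le_of_unit_norm zero_le_one fun v hv => (Finset.single_le_sum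
        (fun i _ => abs_nonneg (p i v)) (Finset.mem_univ j)).trans (p1 v hv.le)) (by norm_num : (1 : ℝ) ≤ _)
  have m0 : 0 < η / (m + 1) := by positivity
  have m1 : ∑ _ : Option (Fin m), η / (m + 1) = η := by simp; field_simp
  obtain ⟨δ, δ0, hδ⟩ := m_cont' h g χ m0
  choose s s1 s2 using fun j => exists_sign (ι g (q j))
  obtain ⟨y, t, t1, y1, y2, y3⟩ := interp h c1 c2 μ f hf q s s1 (lt_min δ0 m0)
  have y4 : μ f - η ≤ μ y := by
    linarith [(abs_le.1 y2).1, min_le_right δ (η / (m + 1)), div_le_self hη.le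
      (show (1 : ℝ) ≤ m + 1 by simp)]
  refine ⟨y, (m_dom h y x y1).trans hx, le_trans ?_ (two h H _ (fun j => q j + t j • χ) (by positivity)
    (by simpa [c1, q1] using hη.le) ((Finset.sum_le_sum (g := fun j => |q j w| + η / (m + 1))
      fun j _ => ?_).trans (by rw [Finset.sum_add_distrib, m1]; linarith)))⟩
  · refine le_trans ?_ (Finset.sum_le_sum (f := fun j => |q j x| + μ y * (|ι g (q j)| - η / (m + 1)))
      fun j _ => ?_)
    · rw [Finset.sum_add_distrib, q1, ← Finset.mul_sum, Finset.sum_sub_distrib, m1, Fintype.sum_option]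
      exact add_le_add_right (mul_le_mul y4 (by
        linarith [abs_nonneg (ι g (q none)), show ∑ i, |ι g (q (some i))| = ∑ i, |ι g (p i)| from rfl])
        (by linarith) (by linarith)) _
    · have s3 : |s j| = 1 := by nlinarith [abs_mul_abs_self (s j), abs_nonneg (s j), s1 j]
      have h3 := hδ (q j) (t j) (q3 j) (t1 j).1 ((t1 j).2.trans (min_le_left _ _))
      rw [← one_mul |_|, ← s3, ← abs_mul] at h3
      rw [m_add h, m_smul h, y3, ← one_mul |s j * _ + _|, ← s3, ← abs_mul, mul_add, ← mul_assoc, s1,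
        one_mul, mul_left_comm]
      refine le_trans ?_ (le_abs_self _)
      exact add_le_add_right (mul_le_mul_of_nonneg_left (by linarith [(abs_le.1 h3).1, s2 j])
        (by linarith)) _
  · simp only [add_apply, smul_apply, c2, smul_eq_mul, mul_one]
    exact (abs_add_le _ _).trans (add_le_add_right ((abs_of_nonneg (t1 j).1).trans_le
      ((t1 j).2.trans (min_le_right _ _))) _)

end

theorem result : ∃ (E : Type) (_ : NormedAddCommGroup E) (_ : NormedSpace ℝ E),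
    Module.finrank ℝ E = 2 ∧ ∃ (X : Type) (_ : NormedAddCommGroup X) (_ : NormedSpace ℝ X)
      (ι : X → (E →L[ℝ] ℝ) → ℝ), IsModel ι ∧ Daug X := by
  obtain ⟨X, _, _, ι, h⟩ := exists_model (ℝ × ℝ)
  refine ⟨ℝ × ℝ, inferInstance, inferInstance, by simp, X, _, _, ι, h, fun T hT => le_antisymm
    (norm_add_le_of_le ContinuousLinearMap.norm_id_le le_rfl) ?_⟩
  obtain ⟨⟨g, g1⟩, g2, g3⟩ := finrank_eq_one_iff'.1 hT
  have g0 : 0 < ‖g‖ := norm_pos_iff.2 fun h => g2 (Subtype.ext h)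
  obtain ⟨φ, -, hφ⟩ := exists_dual_vector ℝ g g0.ne'
  obtain ⟨μ, rfl⟩ : ∃ μ : X →L[ℝ] ℝ, T = μ.smulRight g := ⟨‖g‖⁻¹ • φ.comp T, by
    ext v
    obtain ⟨c, hc⟩ := g3 ⟨T v, v, rfl⟩
    have : T v = c • g := (congrArg Subtype.val hc).symm
    simp [this, hφ, mul_left_comm, g0.ne']⟩
  have m0 : 0 < ‖μ‖ := norm_pos_iff.2 fun h => by
    obtain ⟨v, hv⟩ := g1
    exact g0.ne' (by simpa [h] using congrArg norm hv.symm)
  let x : ℝ × ℝ := (1, 1)
  let w : ℝ × ℝ := (1, -1)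
  let ξ := (1 / 2 : ℝ) • (ContinuousLinearMap.fst ℝ ℝ ℝ + ContinuousLinearMap.snd ℝ ℝ ℝ)
  let χ := (1 / 2 : ℝ) • (ContinuousLinearMap.fst ℝ ℝ ℝ - ContinuousLinearMap.snd ℝ ℝ ℝ)
  have H : ∀ v : ℝ × ℝ, v = ξ v • x + χ v • w ∧ |ξ v| + |χ v| ≤ ‖v‖ := fun v =>
    ⟨by ext <;> simp [x, w, ξ, χ] <;> ring, by
      have h1 := abs_le.1 (norm_fst_le v)
      have h2 := abs_le.1 (norm_snd_le v)
      simp only [ξ, χ, smul_apply, add_apply, sub_apply, ContinuousLinearMap.coe_fst',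
        ContinuousLinearMap.coe_snd', smul_eq_mul]
      cases abs_cases (1 / 2 * (v.1 + v.2)) <;> cases abs_cases (1 / 2 * (v.1 - v.2)) <;> linarith⟩
  have H1 : ∀ v, ‖v‖ ≤ 1 → ∃ a b : ℝ, v = a • x + b • w ∧ |a| + |b| ≤ 1 := fun v hv =>
    ⟨_, _, (H v).1, (H v).2.trans hv⟩
  have hx : ‖x‖ ≤ 1 := by simp [x]
  have hw : ‖w‖ ≤ 1 := by simp [w]
  rw [ContinuousLinearMap.norm_smulRight_apply]
  have c : ∀ F : ℝ → ℝ, Continuous F → Tendsto F (𝓝[>] 0) (𝓝 (F 0)) := fun F hF =>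
    (hF.tendsto 0).mono_left nhdsWithin_le_nhds
  have := le_of_tendsto_of_tendsto (c (fun η => 1 + (‖μ‖ - 2 * η) * (‖g‖ - 2 * η)) (by fun_prop))
    (c (fun η => (1 + η) * ‖ContinuousLinearMap.id ℝ X + μ.smulRight g‖) (by fun_prop)) ?_
  · simpa using this
  filter_upwards [Ioo_mem_nhdsGT (lt_min (half_pos m0) (half_pos g0))] with η ⟨η0, η1⟩
  rw [lt_min_iff] at η1
  obtain ⟨f, f1, f2⟩ : ∃ f, ‖f‖ ≤ 1 ∧ ‖μ‖ - η < μ f := by
    obtain ⟨f, f1, f2⟩ := μ.exists_lt_apply_of_lt_opNorm (sub_lt_self ‖μ‖ η0)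
    rcases lt_abs.1 f2 with h | h
    exacts [⟨f, f1.le, h⟩, ⟨-f, by simpa using f1.le, by simpa using h⟩]
  obtain ⟨a, a0, a1, ha⟩ := dual h H1 f f1
  obtain ⟨d, hd⟩ := m_abs h x
  obtain ⟨e, he⟩ := m_inf h f (a • d)
  obtain ⟨f₀, hf⟩ := m_sup h e (-a • d)
  have k : ∀ z, |ι f₀ z| ≤ a * |z x| ∧ |ι (f - f₀) z| ≤ (1 - a) * |z w| := fun z => by
    have h1 := abs_le.1 (ha z)
    have h2 := mul_nonneg a0 (abs_nonneg (z x))
    have h3 := mul_nonneg (sub_nonneg.2 a1) (abs_nonneg (z w))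
    simp only [m_sub h, hf, he, m_smul h, hd, abs_le, neg_mul]
    cases min_cases (ι f z) (a * |z x|) <;> cases max_cases (min (ι f z) (a * |z x|)) (-(a * |z x|)) <;>
      exact ⟨⟨by linarith, by linarith⟩, by linarith, by linarith⟩
  have k1 : ∀ (u : X) (v : ℝ × ℝ) (b : ℝ), 0 ≤ b → (∀ z, |ι u z| ≤ b * |z v|) →
      (∀ z, |ι (b⁻¹ • u) z| ≤ |z v|) ∧ μ u = b * μ (b⁻¹ • u) := fun u v b hb hu => by
    rcases hb.eq_or_lt with rfl | hb
    · simpa [m_smul h, show u = 0 from norm_le_zero_iff.1 (by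
        simpa using m_dom h u 0 (by simpa using hu))] using fun z => ((h.1 z).map_zero ▸ by simp :
          |ι 0 z| ≤ |z v|)
    · exact ⟨fun z => by
        rw [m_smul h, abs_mul, abs_of_pos (inv_pos.2 hb), inv_mul_le_iff₀ hb]; exact hu z,
        by simp [hb.ne']⟩
  obtain ⟨u1, u2⟩ := k1 _ x a a0 fun z => (k z).1
  obtain ⟨u3, u4⟩ := k1 _ w _ (sub_nonneg.2 a1) fun z => (k z).2
  have fin : ∀ r, ‖μ‖ - η ≤ r → (∃ y, ‖y‖ ≤ 1 ∧ 1 + (r - η) * (‖g‖ - 2 * η) ≤ (1 + η) * ‖y + μ y • g‖) →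
      1 + (‖μ‖ - 2 * η) * (‖g‖ - 2 * η) ≤ (1 + η) * ‖ContinuousLinearMap.id ℝ X + μ.smulRight g‖ :=
    fun r hr ⟨y, y1, y2⟩ => le_trans (by nlinarith) (y2.trans (mul_le_mul_of_nonneg_left
      ((ContinuousLinearMap.id ℝ X + μ.smulRight g).unit_le_opNorm y y1) (by linarith)))
  rw [map_sub] at u4
  rcases le_total (μ (a⁻¹ • f₀)) (μ ((1 - a)⁻¹ • (f - f₀))) with h' | h'
  · exact fin _ (by nlinarith) (main h (fun v hv => ⟨_, _, (H v).1.trans (add_comm _ _),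
      (add_comm _ _).trans_le ((H v).2.trans hv)⟩) hw hx (χ := ξ) (ξ := χ) (by simp [ξ, w])
      (by norm_num [ξ, x]) (by norm_num [χ, w]) (by simp [χ, x]) (ContinuousLinearMap.opNorm_le_bound _
        zero_le_one fun v => by linarith [(H v).2, abs_nonneg (ξ v), Real.norm_eq_abs (χ v)]) μ _ g u3 η0
      (by nlinarith) (by linarith))
  · exact fin _ (by nlinarith) (main h H1 hx hw (χ := χ) (ξ := ξ) (by simp [χ, x])
      (by norm_num [χ, w]) (by norm_num [ξ, x]) (by simp [ξ, w]) (ContinuousLinearMap.opNorm_le_bound _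
        zero_le_one fun v => by linarith [(H v).2, abs_nonneg (χ v), Real.norm_eq_abs (ξ v)]) μ _ g u1 η0
      (by nlinarith) (by linarith))

end Pool.Agent.Results.MP_207313_an.Example
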